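import Mathlib

open MeasureTheory Set Filter Topology

namespace Pool.Agent.Q287.WT

/-- `ℝ^n` with the Euclidean norm. -/
abbrev E (n : ℕ) : Type := EuclideanSpace ℝ (Fin n)

/-- The infimum convolution `Q f (x) = inf_y { f y + θ(a |x - y|) }` with `θ t = t ^ 2`. -/
noncomputable def Qc {n : ℕ} (a : ℝ) (f : E n → ℝ) (x : E n) : ℝ := ⨅ y, (f y + (a * ‖x - y‖) ^ 2)

end Pool.Agent.Q287.WT
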