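import Mathlib
import Pool.Agent.Q287.WT.Defs

open MeasureTheory Set Filter Topology
open scoped InnerProductSpace

namespace Pool.Agent.Q287.WT

variable {n : ℕ}

lemma Qc_bdd {a m : ℝ} {f : E n → ℝ} (hm : ∀ y, m ≤ f y) (x : E n) :
    BddBelow (range fun y => f y + (a * ‖x - y‖) ^ 2) := by
  refine ⟨m, ?_⟩
  rintro _ ⟨y, rfl⟩
  have := hm y
  have := sq_nonneg (a * ‖x - y‖)
  simp only
  linarith

lemma Qc_le {a m : ℝ} {f : E n → ℝ} (hm : ∀ y, m ≤ f y) (x y : E n) :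
    Qc a f x ≤ f y + (a * ‖x - y‖) ^ 2 := ciInf_le (Qc_bdd hm x) y

lemma Qc_le_self {a m : ℝ} {f : E n → ℝ} (hm : ∀ y, m ≤ f y) (x : E n) : Qc a f x ≤ f x := by
  have := Qc_le (a := a) hm x x
  simpa using this

lemma le_Qc {a c : ℝ} {f : E n → ℝ} {x : E n} (h : ∀ y, c ≤ f y + (a * ‖x - y‖) ^ 2) :
    c ≤ Qc a f x := le_ciInf h

lemma le_Qc_of_le {a m : ℝ} {f : E n → ℝ} (hm : ∀ y, m ≤ f y) (x : E n) : m ≤ Qc a f x :=
  le_Qc fun y => by have := hm y; have := sq_nonneg (a * ‖x - y‖); linarith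

lemma convex_continuous {f : E n → ℝ} (hf : ConvexOn ℝ univ f) : Continuous f :=
  hf.locallyLipschitz.continuous

lemma exists_min {a m : ℝ} (ha : 0 < a) {f : E n → ℝ} (hf : ConvexOn ℝ univ f)
    (hm : ∀ y, m ≤ f y) (x : E n) : ∃ z, Qc a f x = f z + (a * ‖x - z‖) ^ 2 := by
  have hc : Continuous (fun y => f y + (a * ‖x - y‖) ^ 2) := by
    have := convex_continuous hf
    fun_prop
  have hlim : Tendsto (fun y => f y + (a * ‖x - y‖) ^ 2) (cocompact (E n)) atTop := by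
    have h1 : Tendsto (fun y : E n => ‖x - y‖) (cocompact (E n)) atTop := by
      have h2 : Tendsto (fun y : E n => ‖y‖ - ‖x‖) (cocompact (E n)) atTop :=
        tendsto_atTop_add_const_right _ _ tendsto_norm_cocompact_atTop
      refine tendsto_atTop_mono (fun y => ?_) h2
      have := norm_sub_norm_le y x
      rwa [norm_sub_rev] at this
    have h3 : Tendsto (fun y : E n => (a * ‖x - y‖) ^ 2) (cocompact (E n)) atTop :=
      (tendsto_pow_atTop two_ne_zero).comp (h1.const_mul_atTop ha)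
    refine tendsto_atTop_mono (fun y => ?_) (tendsto_atTop_add_const_left _ m h3)
    have := hm y
    linarith
  obtain ⟨z, hz⟩ := hc.exists_forall_le hlim
  refine ⟨z, le_antisymm (Qc_le hm x z) (le_Qc hz)⟩

lemma Qc_convex {a m : ℝ} (ha : 0 < a) {f : E n → ℝ} (hf : ConvexOn ℝ univ f)
    (hm : ∀ y, m ≤ f y) : ConvexOn ℝ univ (Qc a f) := by
  refine ⟨convex_univ, ?_⟩
  intro x _ y _ s t hs ht hst
  obtain ⟨z, hz⟩ := exists_min ha hf hm x
  obtain ⟨w, hw⟩ := exists_min ha hf hm y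
  refine (Qc_le hm _ (s • z + t • w)).trans ?_
  rw [hz, hw]
  have h1 : f (s • z + t • w) ≤ s * f z + t * f w := hf.2 (mem_univ _) (mem_univ _) hs ht hst
  have h2 : ‖(s • x + t • y) - (s • z + t • w)‖ ≤ s * ‖x - z‖ + t * ‖y - w‖ := by
    have : (s • x + t • y) - (s • z + t • w) = s • (x - z) + t • (y - w) := by module
    rw [this]
    refine (norm_add_le _ _).trans ?_
    rw [norm_smul, norm_smul, Real.norm_of_nonneg hs, Real.norm_of_nonneg ht]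
  have h3 : (a * ‖(s • x + t • y) - (s • z + t • w)‖) ^ 2
      ≤ (s * (a * ‖x - z‖) + t * (a * ‖y - w‖)) ^ 2 := by
    have : a * ‖(s • x + t • y) - (s • z + t • w)‖ ≤ s * (a * ‖x - z‖) + t * (a * ‖y - w‖) := by
      have := mul_le_mul_of_nonneg_left h2 ha.le
      linarith
    exact pow_le_pow_left₀ (by positivity) this 2
  have h4 : (s * (a * ‖x - z‖) + t * (a * ‖y - w‖)) ^ 2
      ≤ s * (a * ‖x - z‖) ^ 2 + t * (a * ‖y - w‖) ^ 2 := by
    have ht' : t = 1 - s := by linarith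
    subst ht'
    have : s * (a * ‖x - z‖) ^ 2 + (1 - s) * (a * ‖y - w‖) ^ 2
        - (s * (a * ‖x - z‖) + (1 - s) * (a * ‖y - w‖)) ^ 2
        = s * (1 - s) * ((a * ‖x - z‖) - (a * ‖y - w‖)) ^ 2 := by ring
    have h5 : 0 ≤ s * (1 - s) * ((a * ‖x - z‖) - (a * ‖y - w‖)) ^ 2 := by positivity
    linarith
  simp only [smul_eq_mul]
  nlinarith

/-- First-order information on `G = Q f` at a point: `p` is a gradient, and `G - Q G` controls it. -/
lemma exists_grad {a m : ℝ} (ha : 0 < a) {f : E n → ℝ} (hf : ConvexOn ℝ univ f)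
    (hm : ∀ y, m ≤ f y) (x : E n) :
    ∃ p : E n, (∀ y, Qc a f x + ⟪p, y - x⟫_ℝ ≤ Qc a f y) ∧
      ‖p‖ ^ 2 ≤ 8 * a ^ 2 * (Qc a f x - Qc a (Qc a f) x) := by
  obtain ⟨z, hz⟩ := exists_min ha hf hm x
  set p : E n := (2 * a ^ 2) • (x - z) with hp
  have hnorm : ∀ u v : E n, ‖u + v‖ ^ 2 = ‖u‖ ^ 2 + 2 * ⟪u, v⟫_ℝ + ‖v‖ ^ 2 := fun u v =>
    norm_add_sq_real u v
  have hup : ∀ y, Qc a f y ≤ Qc a f x + ⟪p, y - x⟫_ℝ + a ^ 2 * ‖y - x‖ ^ 2 := by
    intro y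
    refine (Qc_le hm y z).trans_eq ?_
    have h1 : y - z = (x - z) + (y - x) := by abel
    rw [hz, mul_pow, mul_pow, h1, hnorm, hp, inner_smul_left]
    simp only [conj_trivial]
    ring
  have hconv := Qc_convex ha hf hm
  have hlow : ∀ y, Qc a f x + ⟪p, y - x⟫_ℝ ≤ Qc a f y := by
    intro y
    have key : ∀ t : ℝ, 0 < t → Qc a f x + ⟪p, y - x⟫_ℝ - t * (a ^ 2 * ‖y - x‖ ^ 2) ≤ Qc a f y := by
      intro t ht
      have h1 : x = (1 / (1 + t)) • (x + (-t) • (y - x)) + (t / (1 + t)) • y := by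
        have : (1 + t) ≠ 0 := by positivity
        have h2 : (1 + t) • x = (1 + t) • ((1 / (1 + t)) • (x + (-t) • (y - x)) + (t / (1 + t)) • y) := by
          rw [smul_add, smul_smul, smul_smul, mul_one_div_cancel this, mul_div_cancel₀ _ this]
          module
        exact smul_right_injective _ this h2
      have h3 := hconv.2 (mem_univ (x + (-t) • (y - x))) (mem_univ y)
        (by positivity : (0 : ℝ) ≤ 1 / (1 + t)) (by positivity : (0 : ℝ) ≤ t / (1 + t))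
        (by field_simp)
      rw [← h1] at h3
      simp only [smul_eq_mul] at h3
      have h4 := hup (x + (-t) • (y - x))
      have h5 : x + (-t) • (y - x) - x = (-t) • (y - x) := by abel
      rw [h5, inner_smul_right, norm_smul, Real.norm_eq_abs, abs_neg, abs_of_pos ht, mul_pow] at h4
      have h6 : (1 + t) * Qc a f x ≤ Qc a f (x + (-t) • (y - x)) + t * Qc a f y := by
        have h7 := mul_le_mul_of_nonneg_left h3 (by positivity : (0:ℝ) ≤ 1 + t)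
        have h8 : (1 + t) * (1 / (1 + t) * Qc a f (x + (-t) • (y - x)) + t / (1 + t) * Qc a f y)
            = Qc a f (x + (-t) • (y - x)) + t * Qc a f y := by field_simp
        linarith
      have h9 : t * (Qc a f x + ⟪p, y - x⟫_ℝ - t * (a ^ 2 * ‖y - x‖ ^ 2)) ≤ t * Qc a f y := by
        nlinarith
      exact le_of_mul_le_mul_left h9 ht
    have hlim : Tendsto (fun t : ℝ => Qc a f x + ⟪p, y - x⟫_ℝ - t * (a ^ 2 * ‖y - x‖ ^ 2))
        (𝓝[>] 0) (𝓝 (Qc a f x + ⟪p, y - x⟫_ℝ - 0 * (a ^ 2 * ‖y - x‖ ^ 2))) := by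
      have : Continuous (fun t : ℝ => Qc a f x + ⟪p, y - x⟫_ℝ - t * (a ^ 2 * ‖y - x‖ ^ 2)) := by
        fun_prop
      exact (this.tendsto 0).mono_left nhdsWithin_le_nhds
    have := le_of_tendsto hlim (by
      filter_upwards [self_mem_nhdsWithin] with t ht using key t ht)
    simpa using this
  refine ⟨p, hlow, ?_⟩
  have hm' : ∀ y, m ≤ Qc a f y := fun y => le_Qc_of_le hm y
  have h1 := Qc_le (a := a) hm' x (x + (-(1 / (4 * a ^ 2))) • p)
  have h2 := hup (x + (-(1 / (4 * a ^ 2))) • p)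
  have h3 : x + (-(1 / (4 * a ^ 2))) • p - x = (-(1 / (4 * a ^ 2))) • p := by abel
  have h4 : x - (x + (-(1 / (4 * a ^ 2))) • p) = (1 / (4 * a ^ 2)) • p := by
    rw [sub_add_eq_sub_sub, sub_self, zero_sub, neg_smul, neg_neg]
  have ha2 : (0 : ℝ) < 1 / (4 * a ^ 2) := by positivity
  rw [h3, inner_smul_right, real_inner_self_eq_norm_sq, norm_smul (-(1 / (4 * a ^ 2))) p,
    Real.norm_eq_abs, abs_neg, abs_of_pos ha2, mul_pow] at h2
  rw [h4, norm_smul (1 / (4 * a ^ 2)) p, Real.norm_eq_abs, abs_of_pos ha2, mul_pow, mul_pow] at h1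
  have h5 : Qc a (Qc a f) x ≤ Qc a f x - ‖p‖ ^ 2 / (8 * a ^ 2) := by
    have h6 : Qc a f x - ‖p‖ ^ 2 / (8 * a ^ 2) = Qc a f x + -(1 / (4 * a ^ 2)) * ‖p‖ ^ 2 +
        a ^ 2 * ((1 / (4 * a ^ 2)) ^ 2 * ‖p‖ ^ 2) + a ^ 2 * ((1 / (4 * a ^ 2)) ^ 2 * ‖p‖ ^ 2) := by
      field_simp; ring
    rw [h6]; linarith
  have h7 : ‖p‖ ^ 2 / (8 * a ^ 2) ≤ Qc a f x - Qc a (Qc a f) x := by linarith
  rw [div_le_iff₀ (by positivity)] at h7
  linarith

lemma Qc_comp_le {a m : ℝ} (ha : 0 < a) {f : E n → ℝ} (hf : ConvexOn ℝ univ f)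
    (hm : ∀ y, m ≤ f y) {b : ℝ} (hba : 2 * b ^ 2 ≤ a ^ 2) (x : E n) :
    Qc b f x ≤ Qc a (Qc a f) x := by
  have hm' : ∀ y, m ≤ Qc a f y := fun y => le_Qc_of_le hm y
  obtain ⟨y, hy⟩ := exists_min ha (Qc_convex ha hf hm) hm' x
  obtain ⟨z, hz⟩ := exists_min ha hf hm y
  rw [hy, hz]
  refine (Qc_le hm x z).trans ?_
  have h1 : ‖x - z‖ ^ 2 ≤ 2 * ‖x - y‖ ^ 2 + 2 * ‖y - z‖ ^ 2 := by
    have h2 : ‖x - z‖ ≤ ‖x - y‖ + ‖y - z‖ := norm_sub_le_norm_sub_add_norm_sub x y z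
    have h3 : ‖x - z‖ ^ 2 ≤ (‖x - y‖ + ‖y - z‖) ^ 2 := pow_le_pow_left₀ (norm_nonneg _) h2 2
    nlinarith [sq_nonneg (‖x - y‖ - ‖y - z‖)]
  rw [mul_pow, mul_pow, mul_pow]
  have h4 : b ^ 2 * ‖x - z‖ ^ 2 ≤ b ^ 2 * (2 * ‖x - y‖ ^ 2 + 2 * ‖y - z‖ ^ 2) :=
    mul_le_mul_of_nonneg_left h1 (sq_nonneg b)
  nlinarith [sq_nonneg ‖x - y‖, sq_nonneg ‖y - z‖]

end Pool.Agent.Q287.WT
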