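import Mathlib
import Pool.Agent.Q287.WT.Defs

open MeasureTheory Set Filter Topology

namespace Pool.Agent.Q287.WT

/-- Dual form of `T⁻(θ(a·))`: `∫ e^{Q f} dμ ≤ e^{∫ f dμ}` for every convex `f` bounded below
(when `∫ f dμ = +∞` the inequality is void). -/
def DualMinus {n : ℕ} (a : ℝ) (μ : Measure (E n)) : Prop :=
  ∀ f : E n → ℝ, ConvexOn ℝ univ f → BddBelow (range f) → Integrable f μ →
    ∫⁻ x, ENNReal.ofReal (Real.exp (Qc a f x)) ∂μ ≤ ENNReal.ofReal (Real.exp (∫ x, f x ∂μ))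

/-- Dual form of `T⁺(θ(a·))`: `e^{∫ Q f dμ} ∫ e^{-f} dμ ≤ 1` for every convex `f` bounded below. -/
def DualPlus {n : ℕ} (a : ℝ) (μ : Measure (E n)) : Prop :=
  ∀ f : E n → ℝ, ConvexOn ℝ univ f → BddBelow (range f) →
    Integrable (Qc a f) μ ∧ Real.exp (∫ x, Qc a f x ∂μ) * ∫ x, Real.exp (- f x) ∂μ ≤ 1

end Pool.Agent.Q287.WT
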