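import Mathlib
import Pool.Agent.Q287.WT.Conv
import Pool.Agent.Q287.WT.Dual

open MeasureTheory Set Filter Topology
open scoped InnerProductSpace

namespace Pool.Agent.Q287.WT

variable {n : ℕ}

lemma integrable_of_lintegral_exp {μ : Measure (E n)} {F : E n → ℝ} (hF : Measurable F)
    {C : ℝ} (h : ∫⁻ x, ENNReal.ofReal (Real.exp (F x)) ∂μ ≤ ENNReal.ofReal C) :
    Integrable (fun x => Real.exp (F x)) μ := by
  refine ⟨(Real.measurable_exp.comp hF).aestronglyMeasurable, ?_⟩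
  rw [hasFiniteIntegral_iff_ofReal (Filter.Eventually.of_forall fun x => (Real.exp_pos _).le)]
  exact h.trans_lt ENNReal.ofReal_lt_top

lemma integral_exp_le {μ : Measure (E n)} {F : E n → ℝ} (hF : Measurable F)
    {C : ℝ} (hC : 0 ≤ C) (h : ∫⁻ x, ENNReal.ofReal (Real.exp (F x)) ∂μ ≤ ENNReal.ofReal C) :
    ∫ x, Real.exp (F x) ∂μ ≤ C := by
  rw [integral_eq_lintegral_of_nonneg_ae (Filter.Eventually.of_forall fun x => (Real.exp_pos _).le)
    (Real.measurable_exp.comp hF).aestronglyMeasurable]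
  exact ENNReal.toReal_le_of_le_ofReal hC h

lemma exp_norm_integrable {μ : Measure (E n)} {b : ℝ} (hb : 0 < b)
    (h : DualMinus b μ) (h1 : Integrable (fun x : E n => ‖x‖) μ) :
    Integrable (fun x : E n => Real.exp ‖x‖) μ := by
  have hconv : ConvexOn ℝ univ (fun x : E n => ‖x‖) := convexOn_norm convex_univ
  have hbdd : BddBelow (range fun x : E n => ‖x‖) := ⟨0, by rintro _ ⟨y, rfl⟩; exact norm_nonneg y⟩
  have h2 := h _ hconv hbdd h1
  have hQ : ∀ x : E n, ‖x‖ - 1 / (4 * b ^ 2) ≤ Qc b (fun x : E n => ‖x‖) x := by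
    intro x
    refine le_Qc fun y => ?_
    have h3 : ‖x‖ ≤ ‖y‖ + ‖x - y‖ := by
      have := norm_add_le y (x - y)
      rwa [add_sub_cancel] at this
    have h4 : ‖x - y‖ ≤ (b * ‖x - y‖) ^ 2 + 1 / (4 * b ^ 2) := by
      have h5 : 0 ≤ (b * ‖x - y‖ - 1 / (2 * b)) ^ 2 := sq_nonneg _
      have h6 : (b * ‖x - y‖ - 1 / (2 * b)) ^ 2 = (b * ‖x - y‖) ^ 2 - ‖x - y‖ + 1 / (4 * b ^ 2) := by
        field_simp; ring
      linarith
    linarith
  have h7 : ∫⁻ x : E n, ENNReal.ofReal (Real.exp (‖x‖ - 1 / (4 * b ^ 2))) ∂μ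
      ≤ ENNReal.ofReal (Real.exp (∫ x : E n, ‖x‖ ∂μ)) := by
    refine (lintegral_mono fun x => ?_).trans h2
    exact ENNReal.ofReal_le_ofReal (Real.exp_le_exp.2 (hQ x))
  have h8 := integrable_of_lintegral_exp (by fun_prop) h7
  have h9 := h8.mul_const (Real.exp (1 / (4 * b ^ 2)))
  refine h9.congr (Filter.Eventually.of_forall fun x => ?_)
  change Real.exp (‖x‖ - 1 / (4 * b ^ 2)) * Real.exp (1 / (4 * b ^ 2)) = _
  rw [← Real.exp_add]; ring_nf

lemma sq_norm_integrable {μ : Measure (E n)} (h : Integrable (fun x : E n => Real.exp ‖x‖) μ) :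
    Integrable (fun x : E n => ‖x‖ ^ 2) μ := by
  refine (h.const_mul 2).mono' (by fun_prop) (Filter.Eventually.of_forall fun x => ?_)
  rw [Real.norm_of_nonneg (sq_nonneg _)]
  have := Real.quadratic_le_exp_of_nonneg (norm_nonneg x)
  have := norm_nonneg x
  linarith

lemma gauss_moment {μ : Measure (E n)} {b : ℝ} (h : DualMinus b μ)
    (h2 : Integrable (fun x : E n => ‖x‖ ^ 2) μ) :
    Integrable (fun x : E n => Real.exp (b ^ 2 / 2 * ‖x‖ ^ 2)) μ ∧
    ∫ x : E n, Real.exp (b ^ 2 / 2 * ‖x‖ ^ 2) ∂μ ≤ Real.exp (b ^ 2 * ∫ x : E n, ‖x‖ ^ 2 ∂μ) := by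
  have hconv : ConvexOn ℝ univ (fun x : E n => b ^ 2 * ‖x‖ ^ 2) := by
    have h3 : ConvexOn ℝ univ (fun x : E n => ‖x‖ ^ 2) :=
      (convexOn_norm convex_univ).pow (fun x _ => norm_nonneg x) 2
    exact h3.smul (sq_nonneg b)
  have hbdd : BddBelow (range fun x : E n => b ^ 2 * ‖x‖ ^ 2) :=
    ⟨0, by rintro _ ⟨y, rfl⟩; positivity⟩
  have h3 := h _ hconv hbdd (h2.const_mul _)
  have hQ : ∀ x : E n, b ^ 2 / 2 * ‖x‖ ^ 2 ≤ Qc b (fun x : E n => b ^ 2 * ‖x‖ ^ 2) x := by
    intro x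
    refine le_Qc fun y => ?_
    have h4 : ‖x‖ ≤ ‖y‖ + ‖x - y‖ := by
      have := norm_add_le y (x - y)
      rwa [add_sub_cancel] at this
    have h5 : ‖x‖ ^ 2 ≤ 2 * ‖y‖ ^ 2 + 2 * ‖x - y‖ ^ 2 := by
      have := pow_le_pow_left₀ (norm_nonneg x) h4 2
      nlinarith [sq_nonneg (‖y‖ - ‖x - y‖)]
    rw [mul_pow]
    nlinarith [mul_le_mul_of_nonneg_left h5 (sq_nonneg b)]
  have h7 : ∫⁻ x : E n, ENNReal.ofReal (Real.exp (b ^ 2 / 2 * ‖x‖ ^ 2)) ∂μ
      ≤ ENNReal.ofReal (Real.exp (b ^ 2 * ∫ x : E n, ‖x‖ ^ 2 ∂μ)) := by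
    rw [integral_const_mul] at h3
    refine (lintegral_mono fun x => ?_).trans h3
    exact ENNReal.ofReal_le_ofReal (Real.exp_le_exp.2 (hQ x))
  exact ⟨integrable_of_lintegral_exp (by fun_prop) h7,
    integral_exp_le (by fun_prop) (Real.exp_pos _).le h7⟩

lemma poly_integrable {μ : Measure (E n)} {c : ℝ} (hc : 0 < c)
    (hg : Integrable (fun x : E n => Real.exp (c * ‖x‖ ^ 2)) μ) {F : E n → ℝ} (hF : Measurable F)
    {C : ℝ} (hC : ∀ x, |F x| ≤ C * (1 + ‖x‖ ^ 2) ^ 2) : Integrable F μ := by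
  have hC0 : 0 ≤ C := by
    have h1 := hC 0
    have h2 := abs_nonneg (F 0)
    simp at h1
    linarith
  refine (hg.const_mul (C * (1 + 2 / c + 2 / c ^ 2))).mono' hF.aestronglyMeasurable
    (Filter.Eventually.of_forall fun x => ?_)
  rw [Real.norm_eq_abs]
  refine (hC x).trans ?_
  rw [mul_assoc]
  refine mul_le_mul_of_nonneg_left ?_ hC0
  set u := ‖x‖ ^ 2 with hu
  have hu0 : 0 ≤ u := sq_nonneg _
  have hcu : 0 ≤ c * u := mul_nonneg hc.le hu0
  have h3 := Real.quadratic_le_exp_of_nonneg hcu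
  have h4 : 1 ≤ Real.exp (c * u) := by nlinarith
  have h5 : u ≤ 1 / c * Real.exp (c * u) := by
    rw [one_div, ← div_eq_inv_mul, le_div_iff₀ hc]; nlinarith
  have h6 : u ^ 2 ≤ 2 / c ^ 2 * Real.exp (c * u) := by
    rw [div_mul_eq_mul_div, le_div_iff₀ (by positivity)]; nlinarith
  have h7 : (1 + u) ^ 2 = 1 + 2 * u + u ^ 2 := by ring
  rw [h7]
  have h8 : 2 * u ≤ 2 / c * Real.exp (c * u) := by
    have : 2 / c * Real.exp (c * u) = 2 * (1 / c * Real.exp (c * u)) := by ring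
    rw [this]; linarith
  nlinarith

/-- Poincaré inequality for convex functions, from the dual form of `T⁻`. -/
lemma poincare {μ : Measure (E n)} [IsProbabilityMeasure μ] {b : ℝ} (hb : 0 < b)
    (h : DualMinus b μ)
    (hg : Integrable (fun x : E n => Real.exp (b ^ 2 / 2 * ‖x‖ ^ 2)) μ)
    {G W : E n → ℝ} (hG : ConvexOn ℝ univ G) {m : ℝ} (hm : ∀ x, m ≤ G x)
    (hW : Measurable W) (hW0 : ∀ x, 0 ≤ W x)
    (hp : ∀ x, ∃ p : E n, (∀ y, G x + ⟪p, y - x⟫_ℝ ≤ G y) ∧ ‖p‖ ^ 2 ≤ 4 * b ^ 2 * W x)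
    {C : ℝ} (hGC : ∀ x, |G x| ≤ C * (1 + ‖x‖ ^ 2)) (hWC : ∀ x, W x ≤ C * (1 + ‖x‖ ^ 2)) :
    ∫ x, (G x - ∫ y, G y ∂μ) ^ 2 ∂μ ≤ 4 * ∫ x, W x ∂μ := by
  have hGm : Measurable G := (convex_continuous hG).measurable
  have hb2 : 0 < b ^ 2 / 2 := by positivity
  have hC0 : 0 ≤ C := by
    have h1 := hGC 0
    have h2 := abs_nonneg (G 0)
    simp at h1; linarith
  have h1le : ∀ x : E n, (1 : ℝ) ≤ 1 + ‖x‖ ^ 2 := fun x => by nlinarith [sq_nonneg ‖x‖]
  have hGi : Integrable G μ := by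
    refine poly_integrable hb2 hg hGm (C := C) fun x => (hGC x).trans ?_
    refine mul_le_mul_of_nonneg_left ?_ hC0
    nlinarith [h1le x]
  have hWi : Integrable W μ := by
    refine poly_integrable hb2 hg hW (C := C) fun x => ?_
    rw [abs_of_nonneg (hW0 x)]
    refine (hWC x).trans (mul_le_mul_of_nonneg_left ?_ hC0)
    nlinarith [h1le x]
  set e := ∫ y, G y ∂μ with he
  have hme : m ≤ e := by
    have : ∫ _x, m ∂μ ≤ e := integral_mono (integrable_const m) hGi hm
    simpa using this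
  set g : E n → ℝ := fun x => G x - e with hgdef
  have hgm : Measurable g := hGm.sub_const _
  have hgC : ∀ x, |g x| ≤ (C + |e|) * (1 + ‖x‖ ^ 2) := by
    intro x
    have h2 : |g x| ≤ |G x| + |e| := abs_sub _ _
    have h3 : |e| ≤ |e| * (1 + ‖x‖ ^ 2) := le_mul_of_one_le_right (abs_nonneg _) (h1le x)
    have := hGC x
    linarith
  have hgi2 : Integrable (fun x => g x ^ 2) μ := by
    refine poly_integrable hb2 hg (hgm.pow_const 2) (C := (C + |e|) ^ 2) fun x => ?_
    rw [abs_pow, ← mul_pow]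
    exact pow_le_pow_left₀ (abs_nonneg _) (hgC x) 2
  have hgW : Integrable (fun x => |g x| * W x) μ := by
    refine poly_integrable hb2 hg (hgm.abs.mul hW) (C := (C + |e|) * C) fun x => ?_
    rw [abs_mul, abs_abs, abs_of_nonneg (hW0 x)]
    have h2 := mul_le_mul (hgC x) (hWC x) (hW0 x) (by have := h1le x; positivity)
    refine h2.trans_eq (by ring)
  have hgi : Integrable g μ := hGi.sub (integrable_const _)
  have hgint : ∫ x, g x ∂μ = 0 := by
    rw [hgdef, integral_sub hGi (integrable_const _)]; simp [he]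
  set Cg := e - m with hCg
  have hCg0 : 0 ≤ Cg := by linarith
  have hglow : ∀ x, -Cg ≤ g x := fun x => by
    have := hm x; simp only [hgdef, hCg]; linarith
  set K := ∫ x, |g x| * W x ∂μ with hK
  have hK0 : 0 ≤ K := integral_nonneg fun x => mul_nonneg (abs_nonneg _) (hW0 x)
  have key : ∀ ε : ℝ, 0 < ε → ε * Cg ≤ 2 → ∫ x, g x ^ 2 ∂μ ≤ 4 * (∫ x, W x ∂μ) + 2 * ε * K := by
    intro ε hε hεC
    have hconv : ConvexOn ℝ univ (fun x => ε * G x) := hG.smul hε.le
    have hbdd : BddBelow (range fun x => ε * G x) := ⟨ε * m, by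
      rintro _ ⟨y, rfl⟩; exact mul_le_mul_of_nonneg_left (hm y) hε.le⟩
    have h2 := h _ hconv hbdd (hGi.const_mul ε)
    rw [integral_const_mul] at h2
    have hQ1 : ∀ x, ε * G x - ε ^ 2 * W x ≤ Qc b (fun x => ε * G x) x := by
      intro x
      obtain ⟨p, hp1, hp2⟩ := hp x
      refine le_Qc fun y => ?_
      have h3 := hp1 y
      have h4 : -(‖p‖ * ‖x - y‖) ≤ ⟪p, y - x⟫_ℝ := by
        have := abs_real_inner_le_norm p (y - x)
        rw [norm_sub_rev y x] at this
        exact (abs_le.1 this).1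
      have h5 : ε * G x - ε * (‖p‖ * ‖x - y‖) ≤ ε * G y := by
        have := mul_le_mul_of_nonneg_left (h3.trans' (add_le_add_right h4 (G x))) hε.le
        linarith
      have h6 : ε * (‖p‖ * ‖x - y‖) ≤ (b * ‖x - y‖) ^ 2 + ε ^ 2 * W x := by
        have h7 : 0 ≤ (b * ‖x - y‖ - ε * ‖p‖ / (2 * b)) ^ 2 := sq_nonneg _
        have h8 : (b * ‖x - y‖ - ε * ‖p‖ / (2 * b)) ^ 2
            = (b * ‖x - y‖) ^ 2 - ε * (‖p‖ * ‖x - y‖) + ε ^ 2 * (‖p‖ ^ 2 / (4 * b ^ 2)) := by
          field_simp; ring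
        have h9 : ‖p‖ ^ 2 / (4 * b ^ 2) ≤ W x := by
          rw [div_le_iff₀ (by positivity)]; linarith
        have h10 := mul_le_mul_of_nonneg_left h9 (sq_nonneg ε)
        linarith
      linarith
    have hQ2 : ∀ x, ε * m ≤ Qc b (fun x => ε * G x) x := fun x =>
      le_Qc_of_le (fun y => mul_le_mul_of_nonneg_left (hm y) hε.le) x
    set r : E n → ℝ := fun x => min (ε ^ 2 * W x) (ε * (g x + Cg)) with hr
    have hrm : Measurable r := (hW.const_mul _).min ((hgm.add_const _).const_mul _)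
    have hr0 : ∀ x, 0 ≤ r x := fun x =>
      le_min (mul_nonneg (sq_nonneg _) (hW0 x)) (mul_nonneg hε.le (by linarith [hglow x]))
    have hr1 : ∀ x, r x ≤ ε ^ 2 * W x := fun x => min_le_left _ _
    have hr2 : ∀ x, r x ≤ ε * (g x + Cg) := fun x => min_le_right _ _
    set u : E n → ℝ := fun x => ε * g x - r x with hu
    have hum : Measurable u := (hgm.const_mul _).sub hrm
    have huQ : ∀ x, u x ≤ Qc b (fun x => ε * G x) x - ε * e := by
      intro x
      have h3 := hQ1 x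
      have h4 := hQ2 x
      simp only [hu, hr, hgdef, hCg]
      rcases min_choice (ε ^ 2 * W x) (ε * (G x - e + (e - m))) with h5 | h5
      · rw [h5]; linarith
      · rw [h5]; linarith
    have hulow : ∀ x, -2 ≤ u x := by
      intro x
      have := hr2 x
      simp only [hu]; nlinarith
    have hexp : ∫⁻ x, ENNReal.ofReal (Real.exp (u x)) ∂μ ≤ ENNReal.ofReal 1 := by
      have h3 : ∀ x, ENNReal.ofReal (Real.exp (u x))
          ≤ ENNReal.ofReal (Real.exp (-(ε * e))) * ENNReal.ofReal (Real.exp (Qc b (fun x => ε * G x) x)) := by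
        intro x
        rw [← ENNReal.ofReal_mul (Real.exp_pos _).le, ← Real.exp_add]
        refine ENNReal.ofReal_le_ofReal (Real.exp_le_exp.2 ?_)
        have := huQ x
        linarith
      refine (lintegral_mono h3).trans ?_
      rw [lintegral_const_mul' _ _ ENNReal.ofReal_ne_top]
      refine (mul_le_mul_right h2 _).trans ?_
      rw [← ENNReal.ofReal_mul (Real.exp_pos _).le, ← Real.exp_add]
      simp [he]
    have hexp1 := integral_exp_le hum zero_le_one hexp
    have hexpi := integrable_of_lintegral_exp hum hexp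
    have hri : Integrable r μ := by
      refine (hWi.const_mul (ε ^ 2)).mono' hrm.aestronglyMeasurable
        (Filter.Eventually.of_forall fun x => ?_)
      rw [Real.norm_of_nonneg (hr0 x)]; exact hr1 x
    have hgri : Integrable (fun x => |g x| * r x) μ := by
      refine (hgW.const_mul (ε ^ 2)).mono' (hgm.abs.mul hrm).aestronglyMeasurable
        (Filter.Eventually.of_forall fun x => ?_)
      rw [Real.norm_of_nonneg (mul_nonneg (abs_nonneg _) (hr0 x))]
      have := mul_le_mul_of_nonneg_left (hr1 x) (abs_nonneg (g x))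
      linarith
    have hpt : ∀ x, 1 + (ε * g x - r x) + (ε ^ 2 * g x ^ 2 - 2 * ε * (|g x| * r x)) / 4
        ≤ Real.exp (u x) := by
      intro x
      have h3 : 1 + u x / 2 ≤ Real.exp (u x / 2) := by
        have := Real.add_one_le_exp (u x / 2); linarith
      have h4 : 0 ≤ 1 + u x / 2 := by have := hulow x; linarith
      have h5 : (1 + u x / 2) ^ 2 ≤ Real.exp (u x) := by
        have h6 := pow_le_pow_left₀ h4 h3 2
        rw [← Real.exp_nat_mul] at h6
        have h7 : ((2 : ℕ) : ℝ) * (u x / 2) = u x := by push_cast; ring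
        rwa [h7] at h6
      refine le_trans ?_ h5
      have h7 : (1 + u x / 2) ^ 2 = 1 + (ε * g x - r x) + (ε ^ 2 * g x ^ 2 - 2 * ε * (g x * r x) + r x ^ 2) / 4 := by
        simp only [hu]; ring
      rw [h7]
      have h8 : g x * r x ≤ |g x| * r x := mul_le_mul_of_nonneg_right (le_abs_self _) (hr0 x)
      have h9 := mul_le_mul_of_nonneg_left h8 hε.le
      nlinarith [sq_nonneg (r x)]
    have h10 : ∫ x, (1 + (ε * g x - r x) + (ε ^ 2 * g x ^ 2 - 2 * ε * (|g x| * r x)) / 4) ∂μ ≤ 1 :=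
      (integral_mono (((integrable_const _).add ((hgi.const_mul _).sub hri)).add
        (((hgi2.const_mul _).sub (hgri.const_mul _)).div_const _)) hexpi hpt).trans hexp1
    have h11 : ∫ x, (1 + (ε * g x - r x) + (ε ^ 2 * g x ^ 2 - 2 * ε * (|g x| * r x)) / 4) ∂μ
        = 1 + (ε * 0 - ∫ x, r x ∂μ) + (ε ^ 2 * (∫ x, g x ^ 2 ∂μ) - 2 * ε * (∫ x, |g x| * r x ∂μ)) / 4 := by
      have hI3 : Integrable (fun x => ε * g x - r x) μ := (hgi.const_mul _).sub hri
      have hI1 : Integrable (fun x => (1 : ℝ) + (ε * g x - r x)) μ := (integrable_const _).add hI3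
      have hI4 : Integrable (fun x => ε ^ 2 * g x ^ 2 - 2 * ε * (|g x| * r x)) μ :=
        (hgi2.const_mul _).sub (hgri.const_mul _)
      have hI2 : Integrable (fun x => (ε ^ 2 * g x ^ 2 - 2 * ε * (|g x| * r x)) / 4) μ :=
        hI4.div_const _
      rw [integral_add hI1 hI2, integral_add (integrable_const _) hI3,
        integral_sub (hgi.const_mul _) hri, integral_div,
        integral_sub (hgi2.const_mul _) (hgri.const_mul _), integral_const_mul, integral_const_mul,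
        integral_const_mul, hgint]
      simp
    rw [h11] at h10
    have h12 : ∫ x, r x ∂μ ≤ ε ^ 2 * ∫ x, W x ∂μ := by
      rw [← integral_const_mul]; exact integral_mono hri (hWi.const_mul _) hr1
    have h13 : ∫ x, |g x| * r x ∂μ ≤ ε ^ 2 * K := by
      rw [hK, ← integral_const_mul]
      refine integral_mono hgri (hgW.const_mul _) fun x => ?_
      have := mul_le_mul_of_nonneg_left (hr1 x) (abs_nonneg (g x))
      simp only
      linarith
    have h14 : ε ^ 2 * (∫ x, g x ^ 2 ∂μ) ≤ ε ^ 2 * (4 * (∫ x, W x ∂μ) + 2 * ε * K) := by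
      have h15 := mul_le_mul_of_nonneg_left h13 hε.le
      nlinarith
    exact le_of_mul_le_mul_left h14 (by positivity)
  refine le_of_forall_pos_le_add fun δ hδ => ?_
  have hden : 0 < 1 + Cg + 2 * K := by positivity
  set ε := min 1 δ / (1 + Cg + 2 * K) with hε
  have hε0 : 0 < ε := by rw [hε]; exact div_pos (lt_min one_pos hδ) hden
  have hε1 : ε * (1 + Cg + 2 * K) = min 1 δ := by rw [hε]; field_simp
  have h1 : ε * Cg ≤ 2 := by
    have : min 1 δ ≤ 1 := min_le_left _ _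
    nlinarith [mul_nonneg hε0.le hK0]
  have h2 : 2 * ε * K ≤ δ := by
    have : min 1 δ ≤ δ := min_le_right _ _
    nlinarith [mul_nonneg hε0.le hCg0]
  have := key ε hε0 h1
  linarith

end Pool.Agent.Q287.WT
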