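import Mathlib
import Pool.Agent.Q287.WT.Core

open MeasureTheory Set Filter Topology
open scoped InnerProductSpace

namespace Pool.Agent.Q287.WT

variable {n : ℕ}

lemma real_hasSum_exp (x : ℝ) : HasSum (fun k : ℕ => x ^ k / k.factorial) (Real.exp x) := by
  have h := NormedSpace.expSeries_div_hasSum_exp (𝔸 := ℝ) x
  rwa [← Real.exp_eq_exp_ℝ] at h

lemma exp_scale {c y : ℝ} (hc0 : 0 ≤ c) (hc1 : c ≤ 1) :
    Real.exp (c * y) ≤ 1 + c * y + c ^ 2 * (Real.exp y + y ^ 2) := by
  rcases le_total 0 y with hy | hy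
  · -- convexity: e^{cy} - 1 - c y ≤ c^2 (e^y - 1 - y)
    have key : Real.exp (c * y) - 1 - c * y ≤ c ^ 2 * (Real.exp y - 1 - y) := by
      have hs1 : HasSum (fun k : ℕ => (c * y) ^ (k + 2) / (k + 2).factorial)
          (Real.exp (c * y) - 1 - c * y) := by
        have h := (hasSum_nat_add_iff' 2).2 (real_hasSum_exp (c * y))
        simpa [Finset.sum_range_succ, sub_sub] using h
      have hs2 : HasSum (fun k : ℕ => c ^ 2 * (y ^ (k + 2) / (k + 2).factorial))
          (c ^ 2 * (Real.exp y - 1 - y)) := by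
        have h := (hasSum_nat_add_iff' 2).2 (real_hasSum_exp y)
        have h2 : HasSum (fun k : ℕ => y ^ (k + 2) / (k + 2).factorial) (Real.exp y - 1 - y) := by
          simpa [Finset.sum_range_succ, sub_sub] using h
        exact h2.mul_left _
      refine hasSum_le (fun k => ?_) hs1 hs2
      rw [mul_pow, pow_add c k 2, mul_div_assoc]
      have h3 : c ^ k ≤ 1 := pow_le_one₀ hc0 hc1
      have h4 : 0 ≤ y ^ (k + 2) / (k + 2).factorial := by positivity
      have h5 : c ^ k * c ^ 2 ≤ c ^ 2 := by nlinarith [sq_nonneg c]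
      exact mul_le_mul_of_nonneg_right h5 h4
    nlinarith [mul_nonneg (sq_nonneg c) hy, mul_nonneg (sq_nonneg c) (sq_nonneg y), sq_nonneg c]
  · -- y ≤ 0: e^{cy} ≤ 1 + cy + (cy)^2
    have h1 : Real.exp (c * y) ≤ 1 + c * y + (c * y) ^ 2 := by
      have hz : c * y ≤ 0 := mul_nonpos_of_nonneg_of_nonpos hc0 hy
      rcases le_total (-1) (c * y) with h | h
      · have h2 := Real.abs_exp_sub_one_sub_id_le (x := c * y) (abs_le.2 ⟨h, by linarith⟩)
        have := (abs_le.1 h2).2
        linarith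
      · have h2 : Real.exp (c * y) ≤ 1 := Real.exp_le_one_iff.2 hz
        nlinarith
    have h2 : 0 < Real.exp y := Real.exp_pos y
    have h3 : (c * y) ^ 2 = c ^ 2 * y ^ 2 := by ring
    nlinarith [mul_nonneg (sq_nonneg c) h2.le]

lemma expo_bound {μ : Measure (E n)} [IsProbabilityMeasure μ] {c s : ℝ} (hc : 0 < c)
    (hgau : Integrable (fun x : E n => Real.exp (c * ‖x‖ ^ 2)) μ)
    (hgau2 : ∫ x : E n, Real.exp (c * ‖x‖ ^ 2) ∂μ ≤ Real.exp (2 * c * ∫ x : E n, ‖x‖ ^ 2 ∂μ))
    (hx2 : Integrable (fun x : E n => ‖x‖ ^ 2) μ)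
    {G Y : E n → ℝ} (hGi : Integrable G μ) (hYi : Integrable Y μ)
    (hp : ∀ x, ∃ p : E n, (∀ y, G x + ⟪p, y - x⟫_ℝ ≤ G y) ∧ ‖p‖ ^ 2 ≤ 4 * s * Y x)
    {l : ℝ} (hl : 0 < l) :
    Integrable (fun x => Real.exp (-(l * (G x - ∫ y, G y ∂μ)))) μ ∧
    ∫ x, Real.exp (-(l * (G x - ∫ y, G y ∂μ))) ∂μ
      ≤ Real.exp (2 * l ^ 2 / c * s * (∫ x, Y x ∂μ) + 3 * c * ∫ x : E n, ‖x‖ ^ 2 ∂μ) := by
  set e := ∫ y, G y ∂μ with he
  set D := ∫ x, Y x ∂μ with hD
  set M := ∫ x : E n, ‖x‖ ^ 2 ∂μ with hM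
  set η := 2 * l / c with hη
  have hη0 : 0 < η := by positivity
  have hpt : ∀ y : E n, -(l * (G y - e)) ≤ (2 * l ^ 2 / c * s * D + c * M) + c * ‖y‖ ^ 2 := by
    intro y
    have h1 : ∀ x, G x - G y ≤ η * s * Y x + 2 / η * (‖x‖ ^ 2 + ‖y‖ ^ 2) := by
      intro x
      obtain ⟨p, hp1, hp2⟩ := hp x
      have h2 := hp1 y
      have h3 : -(‖p‖ * ‖x - y‖) ≤ ⟪p, y - x⟫_ℝ := by
        have := abs_real_inner_le_norm p (y - x)
        rw [norm_sub_rev y x] at this
        exact (abs_le.1 this).1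
      have h4 : ‖p‖ * ‖x - y‖ ≤ η / 4 * ‖p‖ ^ 2 + 1 / η * ‖x - y‖ ^ 2 := by
        have h5 : 0 ≤ (‖p‖ / 2 * η - ‖x - y‖) ^ 2 / η := by positivity
        have h6 : (‖p‖ / 2 * η - ‖x - y‖) ^ 2 / η
            = η / 4 * ‖p‖ ^ 2 - ‖p‖ * ‖x - y‖ + 1 / η * ‖x - y‖ ^ 2 := by
          field_simp; ring
        linarith
      have h7 : ‖x - y‖ ^ 2 ≤ 2 * ‖x‖ ^ 2 + 2 * ‖y‖ ^ 2 := by
        have h8 := pow_le_pow_left₀ (norm_nonneg _) (norm_sub_le x y) 2
        nlinarith [sq_nonneg (‖x‖ - ‖y‖)]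
      have h9 : η / 4 * ‖p‖ ^ 2 ≤ η * s * Y x := by
        have := mul_le_mul_of_nonneg_left hp2 (by positivity : (0:ℝ) ≤ η / 4)
        linarith
      have h10 : 1 / η * ‖x - y‖ ^ 2 ≤ 2 / η * (‖x‖ ^ 2 + ‖y‖ ^ 2) := by
        have := mul_le_mul_of_nonneg_left h7 (by positivity : (0:ℝ) ≤ 1 / η)
        have h11 : 1 / η * (2 * ‖x‖ ^ 2 + 2 * ‖y‖ ^ 2) = 2 / η * (‖x‖ ^ 2 + ‖y‖ ^ 2) := by ring
        linarith
      linarith
    have h2 : ∫ x, (G x - G y) ∂μ ≤ ∫ x, (η * s * Y x + 2 / η * (‖x‖ ^ 2 + ‖y‖ ^ 2)) ∂μ :=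
      integral_mono (hGi.sub (integrable_const _))
        ((hYi.const_mul _).add ((hx2.add (integrable_const _)).const_mul _)) h1
    have h3 : ∫ x, (G x - G y) ∂μ = e - G y := by
      rw [integral_sub hGi (integrable_const _)]; simp [he]
    have h4 : ∫ x : E n, (η * s * Y x + 2 / η * (‖x‖ ^ 2 + ‖y‖ ^ 2)) ∂μ
        = η * s * D + 2 / η * (M + ‖y‖ ^ 2) := by
      have hI : Integrable (fun x : E n => ‖x‖ ^ 2 + ‖y‖ ^ 2) μ := hx2.add (integrable_const _)
      rw [integral_add (hYi.const_mul _) (hI.const_mul _), integral_const_mul, integral_const_mul,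
        integral_add hx2 (integrable_const _)]
      simp [hD, hM]
    rw [h3, h4] at h2
    have h5 : l * (e - G y) ≤ l * (η * s * D + 2 / η * (M + ‖y‖ ^ 2)) :=
      mul_le_mul_of_nonneg_left h2 hl.le
    have h6 : l * (η * s * D + 2 / η * (M + ‖y‖ ^ 2))
        = (2 * l ^ 2 / c * s * D + c * M) + c * ‖y‖ ^ 2 := by
      rw [hη]; field_simp; ring
    linarith
  have hGm : AEStronglyMeasurable (fun x => Real.exp (-(l * (G x - e)))) μ :=
    Real.continuous_exp.comp_aestronglyMeasurable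
      ((hGi.aestronglyMeasurable.sub aestronglyMeasurable_const).const_mul l).neg
  have hdom : Integrable (fun x : E n => Real.exp (2 * l ^ 2 / c * s * D + c * M) * Real.exp (c * ‖x‖ ^ 2)) μ :=
    hgau.const_mul _
  have hle : ∀ x : E n, Real.exp (-(l * (G x - e)))
      ≤ Real.exp (2 * l ^ 2 / c * s * D + c * M) * Real.exp (c * ‖x‖ ^ 2) := by
    intro x
    rw [← Real.exp_add]; exact Real.exp_le_exp.2 (hpt x)
  have hint : Integrable (fun x => Real.exp (-(l * (G x - e)))) μ := by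
    refine hdom.mono' hGm (Filter.Eventually.of_forall fun x => ?_)
    rw [Real.norm_of_nonneg (Real.exp_pos _).le]; exact hle x
  refine ⟨hint, (integral_mono hint hdom hle).trans ?_⟩
  rw [integral_const_mul]
  refine (mul_le_mul_of_nonneg_left hgau2 (Real.exp_pos _).le).trans_eq ?_
  rw [← Real.exp_add]; congr 1; ring

theorem dualPlus_of_dualMinus {μ : Measure (E n)} [IsProbabilityMeasure μ]
    (h1 : Integrable (fun x : E n => ‖x‖) μ) {b : ℝ} (hb : 0 < b) (h : DualMinus b μ) :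
    ∃ a' : ℝ, 0 < a' ∧ DualPlus a' μ := by
  have hx2 := sq_norm_integrable (exp_norm_integrable hb h h1)
  obtain ⟨hgau, hgau2⟩ := gauss_moment h hx2
  set M := ∫ x : E n, ‖x‖ ^ 2 ∂μ with hM
  have hM0 : 0 ≤ M := integral_nonneg fun x => sq_nonneg _
  set c := b ^ 2 / 2 with hc
  have hc0 : 0 < c := by positivity
  have hbc : b ^ 2 = 2 * c := by rw [hc]; ring
  rw [hbc] at hgau2
  set A := Real.exp (2 / c + 3 * c * M) with hA
  have hA0 : 0 < A := Real.exp_pos _
  set s := 1 / (A + 4 / b ^ 2 + 2 / c + 3 * c * M + 1) with hs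
  have hden : 0 < A + 4 / b ^ 2 + 2 / c + 3 * c * M + 1 := by positivity
  have hs0 : 0 < s := by positivity
  have hs1 : s * (A + 4 / b ^ 2 + 2 / c + 3 * c * M + 1) = 1 := by rw [hs]; field_simp
  have hsA : s * (A + 4 / b ^ 2) ≤ 1 := by
    have h2 : 0 ≤ s * (2 / c + 3 * c * M + 1) := by positivity
    nlinarith
  have hsC : s * (2 / c + 3 * c * M) ≤ 1 := by
    have h2 : 0 ≤ s * (A + 4 / b ^ 2 + 1) := by positivity
    nlinarith
  set a := Real.sqrt (s / 2) with ha
  have ha0 : 0 < a := Real.sqrt_pos.2 (by positivity)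
  have ha2 : a ^ 2 = s / 2 := Real.sq_sqrt (by positivity)
  refine ⟨a / 2, by positivity, ?_⟩
  intro f hf hfb
  obtain ⟨m, hm'⟩ := hfb
  have hm : ∀ y, m ≤ f y := fun y => hm' ⟨y, rfl⟩
  set G := Qc a f with hG
  have hGm : ∀ y, m ≤ G y := fun y => le_Qc_of_le hm y
  have hGconv : ConvexOn ℝ univ G := Qc_convex ha0 hf hm
  have hG2conv : ConvexOn ℝ univ (Qc a G) := Qc_convex ha0 hGconv hGm
  set Y : E n → ℝ := fun x => G x - Qc a G x with hY
  have hYc : Continuous Y := (convex_continuous hGconv).sub (convex_continuous hG2conv)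
  have hY0 : ∀ x, 0 ≤ Y x := fun x => sub_nonneg.2 (Qc_le_self hGm x)
  have hGup : ∀ x, G x ≤ f 0 + a ^ 2 * ‖x‖ ^ 2 := by
    intro x
    have := Qc_le (a := a) hm x 0
    rw [sub_zero, mul_pow] at this
    exact this
  have h1le : ∀ x : E n, (1 : ℝ) ≤ 1 + ‖x‖ ^ 2 := fun x => by nlinarith [sq_nonneg ‖x‖]
  set C := |f 0| + a ^ 2 + |m| + |m| with hC
  have hC0 : 0 ≤ C := by positivity
  have hGC : ∀ x, |G x| ≤ C * (1 + ‖x‖ ^ 2) := by
    intro x
    have h2 := hGup x
    have h3 := hGm x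
    have h4 : |m| ≤ |m| * (1 + ‖x‖ ^ 2) := le_mul_of_one_le_right (abs_nonneg _) (h1le x)
    have h5 : |f 0| ≤ |f 0| * (1 + ‖x‖ ^ 2) := le_mul_of_one_le_right (abs_nonneg _) (h1le x)
    have h6 : 0 ≤ a ^ 2 * ‖x‖ ^ 2 := by positivity
    have h7 : C * (1 + ‖x‖ ^ 2) = |f 0| * (1 + ‖x‖ ^ 2) + a ^ 2 + a ^ 2 * ‖x‖ ^ 2
      + |m| * (1 + ‖x‖ ^ 2) + |m| * (1 + ‖x‖ ^ 2) := by rw [hC]; ring
    rw [abs_le, h7]
    constructor
    · have := neg_abs_le m
      have := abs_nonneg (f 0)
      have := abs_nonneg m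
      nlinarith [sq_nonneg a]
    · have := le_abs_self (f 0)
      have := abs_nonneg m
      nlinarith [sq_nonneg a]
  have hYC : ∀ x, Y x ≤ C * (1 + ‖x‖ ^ 2) := by
    intro x
    have h2 := hGup x
    have h3 : m ≤ Qc a G x := le_Qc_of_le hGm x
    have h4 : |m| ≤ |m| * (1 + ‖x‖ ^ 2) := le_mul_of_one_le_right (abs_nonneg _) (h1le x)
    have h5 : |f 0| ≤ |f 0| * (1 + ‖x‖ ^ 2) := le_mul_of_one_le_right (abs_nonneg _) (h1le x)
    have h7 : C * (1 + ‖x‖ ^ 2) = |f 0| * (1 + ‖x‖ ^ 2) + a ^ 2 + a ^ 2 * ‖x‖ ^ 2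
      + |m| * (1 + ‖x‖ ^ 2) + |m| * (1 + ‖x‖ ^ 2) := by rw [hC]; ring
    have := le_abs_self (f 0)
    have := neg_abs_le m
    have := abs_nonneg m
    have h8 : Y x = G x - Qc a G x := rfl
    rw [h8, h7]
    nlinarith [sq_nonneg a]
  have hpoly : ∀ F : E n → ℝ, Measurable F → (∀ x, |F x| ≤ C * (1 + ‖x‖ ^ 2)) → Integrable F μ := by
    intro F hF hFC
    refine poly_integrable hc0 hgau hF (C := C) fun x => (hFC x).trans ?_
    refine mul_le_mul_of_nonneg_left ?_ hC0
    nlinarith [h1le x]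
  have hGi : Integrable G μ := hpoly G (convex_continuous hGconv).measurable hGC
  have hYi : Integrable Y μ := hpoly Y hYc.measurable fun x => by
    rw [abs_of_nonneg (hY0 x)]; exact hYC x
  have hQGi : Integrable (Qc a G) μ := by
    have : Qc a G = fun x => G x - Y x := by funext x; simp [hY]
    rw [this]; exact hGi.sub hYi
  -- gradients
  have hgrad : ∀ x, ∃ p : E n, (∀ y, G x + ⟪p, y - x⟫_ℝ ≤ G y) ∧ ‖p‖ ^ 2 ≤ 4 * s * Y x := by
    intro x
    obtain ⟨p, hp1, hp2⟩ := exists_grad ha0 hf hm x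
    refine ⟨p, hp1, hp2.trans_eq ?_⟩
    rw [ha2]; simp only [hY, hG]; ring
  set D := ∫ x, Y x ∂μ with hD
  have hD0 : 0 ≤ D := integral_nonneg hY0
  set e := ∫ x, G x ∂μ with he
  -- variance
  have hvar : ∫ x, (G x - e) ^ 2 ∂μ ≤ 4 / b ^ 2 * (s * D) := by
    have hpp : ∀ x, ∃ p : E n, (∀ y, G x + ⟪p, y - x⟫_ℝ ≤ G y) ∧
        ‖p‖ ^ 2 ≤ 4 * b ^ 2 * (s / b ^ 2 * Y x) := by
      intro x
      obtain ⟨p, hp1, hp2⟩ := hgrad x
      refine ⟨p, hp1, hp2.trans_eq ?_⟩
      field_simp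
    have h2 := poincare (W := fun x => s / b ^ 2 * Y x) (C := C * (1 + s / b ^ 2)) hb h hgau hGconv hGm
      (hYc.measurable.const_mul _) (fun x => mul_nonneg (by positivity) (hY0 x)) hpp
      (fun x => (hGC x).trans (by
        have : 0 ≤ C * (s / b ^ 2) * (1 + ‖x‖ ^ 2) := by positivity
        nlinarith)) (fun x => by
        have h3 := mul_le_mul_of_nonneg_left (hYC x) (by positivity : (0 : ℝ) ≤ s / b ^ 2)
        have : 0 ≤ C * (1 + ‖x‖ ^ 2) := by positivity
        nlinarith)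
    rw [integral_const_mul, ← hD] at h2
    refine h2.trans_eq ?_
    field_simp
  have hexpG : ∀ l : ℝ, 0 < l → Integrable (fun x => Real.exp (-(l * (G x - e)))) μ ∧
      ∫ x, Real.exp (-(l * (G x - e))) ∂μ ≤ Real.exp (2 * l ^ 2 / c * s * D + 3 * c * M) :=
    fun l hl => expo_bound hc0 hgau hgau2 hx2 hGi hYi hgrad hl
  have hgi : Integrable (fun x => G x - e) μ := hGi.sub (integrable_const _)
  have hgi2 : Integrable (fun x => (G x - e) ^ 2) μ := by
    refine poly_integrable hc0 hgau (((convex_continuous hGconv).measurable.sub_const _).pow_const 2)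
      (C := (C + |e|) ^ 2) fun x => ?_
    rw [abs_pow, ← mul_pow]
    refine pow_le_pow_left₀ (abs_nonneg _) ?_ 2
    have h2 : |G x - e| ≤ |G x| + |e| := abs_sub _ _
    have h3 : |e| ≤ |e| * (1 + ‖x‖ ^ 2) := le_mul_of_one_le_right (abs_nonneg _) (h1le x)
    have := hGC x
    linarith
  have hgint : ∫ x, (G x - e) ∂μ = 0 := by
    rw [integral_sub hGi (integrable_const _)]; simp [he]
  -- the key inequality
  have hkey : ∫ x, Real.exp (-(G x - e)) ∂μ ≤ Real.exp D := by
    have hone := hexpG 1 one_pos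
    simp only [one_mul, one_pow, mul_one] at hone
    rcases le_total 1 (s * D) with hsD | hsD
    · refine hone.2.trans (Real.exp_le_exp.2 ?_)
      have h2 : 3 * c * M ≤ 3 * c * M * (s * D) :=
        le_mul_of_one_le_right (by positivity) hsD
      have h3 : s * (2 / c + 3 * c * M) * D ≤ 1 * D := mul_le_mul_of_nonneg_right hsC hD0
      nlinarith
    · -- v = s D ≤ 1
      rcases (mul_nonneg hs0.le hD0).eq_or_lt with hz | hpos
      · -- D = 0
        have hD00 : D = 0 := by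
          rcases mul_eq_zero.1 hz.symm with h2 | h2
          · exact absurd h2 hs0.ne'
          · exact h2
        rw [hD00, mul_zero, mul_zero] at hvar
        have h2 : ∫ x, (G x - e) ^ 2 ∂μ = 0 := le_antisymm hvar (integral_nonneg fun x => sq_nonneg _)
        have h3 := (integral_eq_zero_iff_of_nonneg (fun x => sq_nonneg (G x - e)) hgi2).1 h2
        have h4 : ∫ x, Real.exp (-(G x - e)) ∂μ = ∫ _x, (1 : ℝ) ∂μ := by
          refine integral_congr_ae ?_
          filter_upwards [h3] with x hx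
          have h5 : G x - e = 0 := by
            have h6 : (G x - e) ^ 2 = 0 := hx
            exact pow_eq_zero_iff two_ne_zero |>.1 h6
          rw [h5]; simp
        rw [h4, hD00]; simp
      · set v := s * D with hv
        set r := Real.sqrt v with hr
        have hr0 : 0 < r := Real.sqrt_pos.2 hpos
        have hr2 : r ^ 2 = v := Real.sq_sqrt hpos.le
        have hr1 : r ≤ 1 := by rw [hr]; exact Real.sqrt_le_one.2 hsD
        have hl := hexpG (1 / r) (by positivity)
        have hAb : Real.exp (2 * (1 / r) ^ 2 / c * s * D + 3 * c * M) = A := by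
          rw [hA]; congr 2
          rw [div_pow, hr2, one_pow, hv]
          have hD1 : D ≠ 0 := by
            intro h2; rw [hv, h2, mul_zero] at hpos; exact lt_irrefl _ hpos
          field_simp
        rw [hAb] at hl
        have hpt : ∀ x, Real.exp (-(G x - e)) ≤ 1 + -(G x - e)
            + (v * Real.exp (-(1 / r * (G x - e))) + (G x - e) ^ 2) := by
          intro x
          have h2 := exp_scale (c := r) (y := -(1 / r * (G x - e))) hr0.le hr1
          have h3 : r * -(1 / r * (G x - e)) = -(G x - e) := by field_simp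
          rw [h3] at h2
          have h4 : r ^ 2 * (Real.exp (-(1 / r * (G x - e))) + (-(1 / r * (G x - e))) ^ 2)
              = v * Real.exp (-(1 / r * (G x - e))) + (G x - e) ^ 2 := by
            rw [mul_add, hr2, ← hr2]; field_simp
          rw [h4] at h2
          exact h2
        have hI1 : Integrable (fun x => (1 : ℝ) + -(G x - e)) μ := (integrable_const _).add hgi.neg
        have hI2 : Integrable (fun x => v * Real.exp (-(1 / r * (G x - e))) + (G x - e) ^ 2) μ :=
          (hl.1.const_mul _).add hgi2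
        have h5 := integral_mono hone.1 (hI1.add hI2) hpt
        have h6 : ∫ x, (1 + -(G x - e) + (v * Real.exp (-(1 / r * (G x - e))) + (G x - e) ^ 2)) ∂μ
            = 1 + (v * (∫ x, Real.exp (-(1 / r * (G x - e))) ∂μ) + ∫ x, (G x - e) ^ 2 ∂μ) := by
          have hneg : Integrable (fun x => -(G x - e)) μ := hgi.neg
          rw [integral_add hI1 hI2, integral_add (integrable_const _) hneg, integral_neg, hgint,
            integral_add (hl.1.const_mul _) hgi2, integral_const_mul]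
          simp
        have h7 : ∫ x, Real.exp (-(G x - e)) ∂μ ≤ 1 + v * (A + 4 / b ^ 2) := by
          refine h5.trans ?_
          change ∫ x, (1 + -(G x - e) + (v * Real.exp (-(1 / r * (G x - e))) + (G x - e) ^ 2)) ∂μ ≤ _
          rw [h6]
          have h8 := mul_le_mul_of_nonneg_left hl.2 hpos.le
          nlinarith
        refine h7.trans ?_
        have h8 : v * (A + 4 / b ^ 2) ≤ D := by
          have := mul_le_mul_of_nonneg_right hsA hD0
          rw [hv]; nlinarith
        have := Real.add_one_le_exp D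
        linarith
  -- conclusion
  have hQle : ∀ x, Qc (a / 2) f x ≤ Qc a G x := fun x =>
    Qc_comp_le ha0 hf hm (by nlinarith [sq_nonneg a]) x
  have hQm : ∀ x, m ≤ Qc (a / 2) f x := fun x => le_Qc_of_le hm x
  have hQi : Integrable (Qc (a / 2) f) μ := by
    have hcont := convex_continuous (Qc_convex (a := a / 2) (by positivity) hf hm)
    refine ((hQGi.abs).add (integrable_const |m|)).mono' hcont.aestronglyMeasurable
      (Filter.Eventually.of_forall fun x => ?_)
    rw [Real.norm_eq_abs, abs_le]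
    have h2 := hQle x
    have h3 := hQm x
    simp only [Pi.add_apply]
    constructor
    · have := neg_abs_le m
      have := abs_nonneg (Qc a G x)
      linarith
    · have := le_abs_self (Qc a G x)
      have := abs_nonneg m
      linarith
  refine ⟨hQi, ?_⟩
  have hfG : ∀ x, Real.exp (- f x) ≤ Real.exp (- G x) := fun x =>
    Real.exp_le_exp.2 (neg_le_neg (Qc_le_self hm x))
  have hexpGi : Integrable (fun x => Real.exp (- G x)) μ := by
    refine (integrable_const (Real.exp (-m))).mono'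
      (Real.continuous_exp.comp (convex_continuous hGconv).neg).aestronglyMeasurable
      (Filter.Eventually.of_forall fun x => ?_)
    rw [Real.norm_of_nonneg (Real.exp_pos _).le]
    exact Real.exp_le_exp.2 (neg_le_neg (hGm x))
  have hexpfi : Integrable (fun x => Real.exp (- f x)) μ := by
    refine (integrable_const (Real.exp (-m))).mono'
      (Real.continuous_exp.comp (convex_continuous hf).neg).aestronglyMeasurable
      (Filter.Eventually.of_forall fun x => ?_)
    rw [Real.norm_of_nonneg (Real.exp_pos _).le]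
    exact Real.exp_le_exp.2 (neg_le_neg (hm x))
  have h2 : Real.exp (∫ x, Qc (a / 2) f x ∂μ) ≤ Real.exp (∫ x, Qc a G x ∂μ) :=
    Real.exp_le_exp.2 (integral_mono hQi hQGi hQle)
  have h3 : ∫ x, Real.exp (- f x) ∂μ ≤ ∫ x, Real.exp (- G x) ∂μ := integral_mono hexpfi hexpGi hfG
  have h4 : ∫ x, Qc a G x ∂μ = e - D := by
    rw [hD, he, ← integral_sub hGi hYi]
    refine integral_congr_ae (Filter.Eventually.of_forall fun x => ?_)
    simp [hY]
  have h5 : ∫ x, Real.exp (-(G x - e)) ∂μ = Real.exp e * ∫ x, Real.exp (- G x) ∂μ := by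
    rw [← integral_const_mul]
    refine integral_congr_ae (Filter.Eventually.of_forall fun x => ?_)
    simp only
    rw [← Real.exp_add]; congr 1; ring
  rw [h5] at hkey
  calc Real.exp (∫ x, Qc (a / 2) f x ∂μ) * ∫ x, Real.exp (- f x) ∂μ
      ≤ Real.exp (∫ x, Qc a G x ∂μ) * ∫ x, Real.exp (- G x) ∂μ :=
        mul_le_mul h2 h3 (integral_nonneg fun x => (Real.exp_pos _).le) (Real.exp_pos _).le
    _ = Real.exp (-D) * (Real.exp e * ∫ x, Real.exp (- G x) ∂μ) := by
        rw [h4, sub_eq_add_neg, add_comm e, Real.exp_add, mul_assoc]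
    _ ≤ Real.exp (-D) * Real.exp D := mul_le_mul_of_nonneg_left hkey (Real.exp_pos _).le
    _ = 1 := by rw [← Real.exp_add]; simp

end Pool.Agent.Q287.WT
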